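import Mathlib
import Pool.Agent.Y282.WD.Stm

/-!
# Backward invariance of the Fatou set
-/

set_option autoImplicit false

open Filter Topology Metric Set

namespace Pool.Agent.Y811.WD

open Pool.Agent.H384R2.Fatou Pool.Agent.H723R2.LSW

/-- the Fatou set of a continuous map is backward invariant -/
theorem back {f : ℂ → ℂ} (hf : Continuous f) (z : ℂ) (hz : f z ∈ FatouSet f) : z ∈ FatouSet f := by
  obtain ⟨r, hr, hn⟩ := hz
  obtain ⟨s, hs, hs'⟩ := Metric.continuousAt_iff.1 (hf.continuousAt (x := z)) r hr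
  have hmap : MapsTo f (ball z s) (ball (f z) r) := fun x hx => hs' hx
  refine ⟨s, hs, fun φ => ?_⟩
  obtain ⟨ψ, hψ, ⟨c, hc⟩ | hinf⟩ := exists_subseq' φ
  · refine ⟨ψ, hψ, Or.inl ⟨f^[c], ?_⟩⟩
    have : (fun j => f^[φ (ψ j)]) = fun _ : ℕ => f^[c] := by
      funext j; rw [hc j]
    show TendstoLocallyUniformlyOn (fun j => f^[φ (ψ j)]) (f^[c]) atTop (ball z s)
    rw [this]
    exact tlu_const _ _
  · obtain ⟨N, hN⟩ := (hinf.eventually (eventually_ge_atTop 1)).exists_forall_of_atTop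
    obtain ⟨ψ₂, hψ₂, h⟩ := hn fun j => φ (ψ (j + N)) - 1
    have he : ∀ j, f^[φ (ψ (ψ₂ j + N))] = f^[φ (ψ (ψ₂ j + N)) - 1] ∘ f := by
      intro j
      have h1 := hN (ψ₂ j + N) (Nat.le_add_left _ _)
      rw [← Function.iterate_succ]
      congr 1
      omega
    refine ⟨fun j => ψ (ψ₂ j + N), fun a b hab => hψ (Nat.add_lt_add_right (hψ₂ hab) N), ?_⟩
    rcases h with ⟨g, hg⟩ | h
    · left
      refine ⟨g ∘ f, ?_⟩
      have h2 := hg.comp f hmap hf.continuousOn
      refine h2.congr fun j => ?_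
      intro x _
      change (f^[φ (ψ (ψ₂ j + N)) - 1] ∘ f) x = f^[φ (ψ (ψ₂ j + N))] x
      rw [he j]
    · right
      intro K hK hKc R
      filter_upwards [h (f '' K) (by
        rintro _ ⟨x, hx, rfl⟩
        exact hmap (hK hx)) (hKc.image hf) R] with j hj x hx
      have h3 := hj (f x) ⟨x, hx, rfl⟩
      change R ≤ ‖f^[φ (ψ (ψ₂ j + N))] x‖
      rw [he j]
      exact h3

theorem t_BACK : Pool.Agent.Y282.WD.S_BACK := by
  have hf : Continuous f₀ := by
    unfold f₀
    fun_prop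
  exact fun z hz => back hf z hz

end Pool.Agent.Y811.WD
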